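import Mathlib

/-!
# Three-heap Blocking Nim with blocks on all three heaps
-/

set_option autoImplicit false

namespace Pool.Agent.Results.MP_7e332b_co.FullBlocks

/-- An announcement before a move: no block (`none`), or a block `some a`, which forbids the
removal of exactly `a i` counters from the heap `i`, for each of the three heaps. -/
abbrev Announcement : Type := Option (Fin 3 → ℕ)

/-- The numbers of a block are positive. -/
def Announcement.Valid (b : Announcement) : Prop := ∀ a, b = some a → ∀ i, 0 < a i

/-- The announcement `b` forbids the removal of exactly `r` counters from the heap `i`. -/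
def Announcement.Forbids (b : Announcement) (i : Fin 3) (r : ℕ) : Prop := ∃ a, b = some a ∧ a i = r

/-- The total number of counters. -/
def total (x : Fin 3 → ℕ) : ℕ := x 0 + x 1 + x 2

theorem total_update (x : Fin 3 → ℕ) (i : Fin 3) (r : ℕ) (h0 : 0 < r) (hr : r ≤ x i) :
    total (Function.update x i (x i - r)) < total x := by
  fin_cases i <;> simp [total, Function.update] at hr ⊢ <;> omega

/-- `IsP x`: the player who is about to announce a block wins, that is, he has an announcement `b`
such that every move that is still allowed (remove `r > 0` counters from a heap `i`) leads to a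
position that is not a P-position. -/
def IsP (x : Fin 3 → ℕ) : Prop :=
  ∃ b : Announcement, b.Valid ∧ ∀ (i : Fin 3) (r : ℕ) (_ : 0 < r) (_ : r ≤ x i), ¬ b.Forbids i r →
    ¬ IsP (Function.update x i (x i - r))
termination_by total x
decreasing_by exact total_update _ _ _ (by assumption) (by assumption)

/-- the nim-sum of the halves of the heaps -/
def hsum (x : Fin 3 → ℕ) : ℕ := (x 0 / 2) ^^^ (x 1 / 2) ^^^ (x 2 / 2)

theorem hsum_update_eq (x : Fin 3 → ℕ) (i : Fin 3) (v : ℕ) (h : hsum x = 0)
    (h' : hsum (Function.update x i v) = 0) : v / 2 = x i / 2 := by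
  fin_cases i
  · simp [hsum, Function.update] at h h' ⊢
    exact Nat.xor_left_inj.1 (h'.trans h.symm)
  · simp [hsum, Function.update] at h h' ⊢
    exact Nat.xor_right_inj.1 (h'.trans h.symm)
  · simp [hsum, Function.update] at h h' ⊢
    exact h'.symm.trans h

/-- if the nim-sum of the halves is not zero, some half can be lowered to make it zero -/
theorem exists_half (x : Fin 3 → ℕ) (h : hsum x ≠ 0) : ∃ (i : Fin 3) (v : ℕ), v < x i / 2 ∧
    ∀ w, w / 2 = v → hsum (Function.update x i w) = 0 := by
  rcases Nat.xor_trichotomy h with h | h | h
  · refine ⟨0, _, h, fun w hw => ?_⟩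
    simp [hsum, Function.update, hw]
  · refine ⟨1, _, h, fun w hw => ?_⟩
    simp [hsum, Function.update, hw]
  · refine ⟨2, _, h, fun w hw => ?_⟩
    simp [hsum, Function.update, hw]

/-- **Theorem.** In three-heap Blocking Nim with blocks on all three heaps the position
`(x 0, x 1, x 2)` is a P-position if and only if the nim-sum of `⌊x 0 / 2⌋`, `⌊x 1 / 2⌋`,
`⌊x 2 / 2⌋` is `0`. -/
theorem result (x : Fin 3 → ℕ) :
    IsP x ↔ (x 0 / 2) ^^^ (x 1 / 2) ^^^ (x 2 / 2) = 0 := by
  have main : ∀ n : ℕ, ∀ x : Fin 3 → ℕ, total x = n → (IsP x ↔ hsum x = 0) := by
    intro n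
    induction n using Nat.strong_induction_on with
    | _ n ih =>
      intro x hx
      rw [IsP]
      constructor
      · rintro ⟨b, -, hb⟩
        by_contra hne
        obtain ⟨i, v, hv, hw⟩ := exists_half x hne
        have move : ∀ w, w / 2 = v → b.Forbids i (x i - w) := by
          intro w hwv
          by_contra hf
          have hlt : w < x i := by omega
          have h1 := hb i (x i - w) (by omega) (by omega) hf
          have e : x i - (x i - w) = w := by omega
          rw [e] at h1
          have h2 : total (Function.update x i w) < n := by
            have h3 := total_update x i (x i - w) (by omega) (by omega)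
            rwa [e, hx] at h3
          exact h1 ((ih _ h2 _ rfl).2 (hw w hwv))
        obtain ⟨a, ha, h1⟩ := move (2 * v) (by omega)
        obtain ⟨a', ha', h2⟩ := move (2 * v + 1) (by omega)
        rw [ha] at ha'
        cases ha'
        omega
      · intro h
        refine ⟨some fun _ => 1, fun a ha i => ?_, fun i r h0 hr hf => ?_⟩
        · cases ha
          exact one_pos
        · have hr1 : r ≠ 1 := fun h1 => hf ⟨_, rfl, h1.symm⟩
          rw [ih _ (by rw [← hx]; exact total_update x i r h0 hr) _ rfl]
          intro h'
          have := hsum_update_eq x i _ h h'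
          omega
  exact main _ x rfl

end Pool.Agent.Results.MP_7e332b_co.FullBlocks
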